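import Mathlib

open Finset

namespace Pool.Agent.Results.MP_87e4a0_co.PerfectCodes

/-- Binary strings of length `n` (`true` is the letter `1`). -/
abbrev Str (n : ℕ) := Fin n → Bool

/-- The hypercube `Q_n`: two strings are adjacent when they differ in exactly one position. -/
def cube (n : ℕ) : SimpleGraph (Str n) where
  Adj x y := hammingDist x y = 1
  symm := ⟨fun x y h => by rw [hammingDist_comm]; exact h⟩
  loopless := ⟨fun x h => by simp at h⟩

/-- The string `x` contains `1^s` as a substring (the letters number `k, …, k + s - 1` are `1`,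
counting from `0`). -/
def HasRun {n : ℕ} (s : ℕ) (x : Str n) : Prop :=
  ∃ k : ℕ, k + s ≤ n ∧ ∀ j : Fin n, k ≤ (j : ℕ) → (j : ℕ) < k + s → x j = true

/-- The generalized Fibonacci cube `Γ_n(1^s)`: the subgraph of `Q_n` induced by the strings which
do not contain `1^s`. -/
def fibCube (n s : ℕ) : SimpleGraph {x : Str n // ¬ HasRun s x} :=
  (cube n).induce {x | ¬ HasRun s x}

/-- `C` is a perfect code of the graph `G`: every vertex `v` lies in the closed neighbourhood of
exactly one element `c` of `C`. -/
def IsPerfectCode {V : Type*} (G : SimpleGraph V) (C : Set V) : Prop :=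
  ∀ v : V, ∃! c : V, c ∈ C ∧ (v = c ∨ G.Adj c v)

variable {n : ℕ}

/-- flip the letter number `i` -/
def flip (x : Str n) (i : Fin n) : Str n := Function.update x i (!x i)

lemma flip_same (x : Str n) (i : Fin n) : flip x i i = !x i := by simp [flip]

lemma flip_ne (x : Str n) {i j : Fin n} (h : j ≠ i) : flip x i j = x j := by simp [flip, h]

lemma flip_flip (x : Str n) (i : Fin n) : flip (flip x i) i = x := by
  funext j
  by_cases h : j = i
  · subst h; simp [flip]
  · simp [flip, h]

lemma flip_comm (x : Str n) (i j : Fin n) : flip (flip x i) j = flip (flip x j) i := by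
  funext k
  by_cases h1 : k = i <;> by_cases h2 : k = j <;> by_cases h3 : i = j <;>
    simp_all [flip, Function.update_apply]

lemma flip_ne_self (x : Str n) (i : Fin n) : flip x i ≠ x := by
  intro h
  have := congrFun h i
  rw [flip_same] at this
  cases hx : x i <;> simp [hx] at this

lemma flip_inj (x : Str n) {i j : Fin n} (h : flip x i = flip x j) : i = j := by
  by_contra hne
  have := congrFun h i
  rw [flip_same, flip_ne x hne] at this
  cases hx : x i <;> simp [hx] at this

lemma adj_iff (x y : Str n) : (cube n).Adj x y ↔ ∃ i, y = flip x i := by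
  change hammingDist x y = 1 ↔ _
  unfold hammingDist
  rw [Finset.card_eq_one]
  constructor
  · rintro ⟨i, hi⟩
    refine ⟨i, ?_⟩
    funext j
    have hj : j ∈ ({j | x j ≠ y j} : Finset (Fin n)) ↔ j = i := by rw [hi]; simp
    simp only [Finset.mem_filter, Finset.mem_univ, true_and] at hj
    by_cases h : j = i
    · subst h
      rw [flip_same]
      have := hj.2 rfl
      cases hx : x j <;> cases hy : y j <;> simp_all
    · rw [flip_ne x h]
      by_contra hne
      exact h (hj.1 fun h' => hne h'.symm)
  · rintro ⟨i, rfl⟩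
    refine ⟨i, ?_⟩
    ext j
    simp only [Finset.mem_filter, Finset.mem_univ, true_and, Finset.mem_singleton]
    constructor
    · intro h
      by_contra hne
      exact h (flip_ne x hne).symm
    · rintro rfl
      rw [flip_same]
      cases x j <;> simp

/-- `y` is in the closed neighbourhood of `x` -/
def Near (x y : Str n) : Prop := y = x ∨ ∃ i, y = flip x i

lemma Near.symm {x y : Str n} (h : Near x y) : Near y x := by
  rcases h with rfl | ⟨i, rfl⟩
  · exact Or.inl rfl
  · exact Or.inr ⟨i, (flip_flip x i).symm⟩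

/-- the strings without `1^s` form a down-set -/
lemma HasRun.mono {s : ℕ} {x y : Str n} (hx : HasRun s x) (h : ∀ j, x j = true → y j = true) :
    HasRun s y := by
  obtain ⟨k, hk, hr⟩ := hx
  exact ⟨k, hk, fun j h1 h2 => h j (hr j h1 h2)⟩

/-- the neighbours of `x` and `x` itself -/
def nb (x : Str n) : Option (Fin n) → Str n
  | none => x
  | some i => flip x i

lemma nb_inj (x : Str n) : Function.Injective (nb x) := by
  intro a b h
  cases a with
  | none => cases b with
    | none => rfl
    | some j => exact absurd h.symm (flip_ne_self x j)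
  | some i => cases b with
    | none => exact absurd h (flip_ne_self x i)
    | some j => rw [flip_inj x h]

lemma near_iff (x y : Str n) : Near x y ↔ ∃ o, y = nb x o := by
  constructor
  · rintro (rfl | ⟨i, rfl⟩)
    · exact ⟨none, rfl⟩
    · exact ⟨some i, rfl⟩
  · rintro ⟨o, rfl⟩
    cases o with
    | none => exact Or.inl rfl
    | some i => exact Or.inr ⟨i, rfl⟩

/-- the operator `A + I` modulo `2` -/
def T (f : Str n → ZMod 2) (x : Str n) : ZMod 2 := ∑ o : Option (Fin n), f (nb x o)

lemma T_eq (f : Str n → ZMod 2) (x : Str n) : T f x = f x + ∑ i, f (flip x i) := by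
  unfold T
  rw [Fintype.sum_option]
  rfl

lemma zz (a : ZMod 2) : a + a = 0 := CharTwo.add_self_eq_zero a

lemma sum_symm {ι : Type*} [Fintype ι] [DecidableEq ι] (a : ι → ι → ZMod 2)
    (h : ∀ i j, a i j = a j i) : ∑ i, ∑ j, a i j = ∑ i, a i i := by
  rw [← Fintype.sum_prod_type']
  have hdisj := Finset.disjoint_diag_offDiag (Finset.univ : Finset ι)
  have hun := Finset.diag_union_offDiag (Finset.univ : Finset ι)
  rw [← Finset.univ_product_univ, ← hun, Finset.sum_union hdisj, Finset.sum_diag]
  rw [Finset.sum_involution (s := (Finset.univ : Finset ι).offDiag) (fun p _ => p.swap)]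
  · simp
  · intro p _
    change a p.1 p.2 + a p.2 p.1 = 0
    rw [h p.2 p.1]
    exact zz _
  · intro p hp _ hsw
    rw [Finset.mem_offDiag] at hp
    apply hp.2.2
    have := congrArg Prod.snd hsw
    simpa using this
  · intro p hp
    rw [Finset.mem_offDiag] at hp ⊢
    exact ⟨hp.2.1, hp.1, fun h' => hp.2.2 h'.symm⟩
  · intro p _
    simp

lemma TT (f : Str n → ZMod 2) (x : Str n) : T (T f) x = ((n : ZMod 2) + 1) * f x := by
  rw [T_eq, T_eq]
  simp_rw [T_eq]
  rw [Finset.sum_add_distrib, sum_symm (fun i j => f (flip (flip x i) j))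
    (fun i j => by rw [flip_comm])]
  simp_rw [flip_flip]
  rw [Finset.sum_const, Finset.card_univ, Fintype.card_fin, nsmul_eq_mul]
  have := zz (∑ i, f (flip x i))
  linear_combination this


/-! ### The code -/

/-- `D` consists of strings without `1^s`, and every such string is near exactly one element of `D`. -/
structure Code (n s : ℕ) (D : Set (Str n)) : Prop where
  free : ∀ c ∈ D, ¬ HasRun s c
  cov : ∀ v : Str n, ¬ HasRun s v → ∃! c : Str n, c ∈ D ∧ Near v c

section
variable {s : ℕ} {D : Set (Str n)}

lemma Code.unique (h : Code n s D) {z c c' : Str n} (hc : c ∈ D) (hc' : c' ∈ D)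
    (h1 : Near z c) (h2 : Near z c') : c = c' := by
  by_cases hz : HasRun s z
  · rcases h1 with rfl | ⟨i, rfl⟩
    · exact absurd hz (h.free _ hc)
    rcases h2 with rfl | ⟨j, rfl⟩
    · exact absurd hz (h.free _ hc')
    by_cases hij : i = j
    · rw [hij]
    have key : ∀ k, flip z k ∈ D → z k = true := by
      intro k hk
      by_contra hne
      refine h.free _ hk (hz.mono fun l hl => ?_)
      by_cases hkl : l = k
      · subst hkl; exact absurd hl hne
      · rw [flip_ne z hkl]; exact hl
    have hi := key i hc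
    have hj := key j hc'
    have hw : ¬ HasRun s (flip (flip z i) j) := by
      intro hr
      refine h.free _ hc (hr.mono fun l hl => ?_)
      by_cases hlj : l = j
      · subst hlj
        rw [flip_same, flip_ne z (Ne.symm hij), hj] at hl
        simp at hl
      · rwa [flip_ne _ hlj] at hl
    obtain ⟨d, _, hd⟩ := h.cov _ hw
    have e1 := hd (flip z i) ⟨hc, Or.inr ⟨j, (flip_flip _ j).symm⟩⟩
    have e2 := hd (flip z j) ⟨hc', Or.inr ⟨i, by rw [flip_comm z i j, flip_flip]⟩⟩
    rw [e1, e2]
  · obtain ⟨d, _, hd⟩ := h.cov z hz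
    rw [hd c ⟨hc, h1⟩, hd c' ⟨hc', h2⟩]

open Classical in
/-- the indicator of the code -/
noncomputable def f (D : Set (Str n)) (z : Str n) : ZMod 2 := if z ∈ D then 1 else 0

open Classical in
/-- the indicator of the uncovered strings -/
noncomputable def u (D : Set (Str n)) (z : Str n) : ZMod 2 := if ∃ c ∈ D, Near z c then 0 else 1

lemma Code.Tf (h : Code n s D) (z : Str n) : T (f D) z = 1 + u D z := by
  classical
  unfold T
  by_cases hz : ∃ c ∈ D, Near z c
  · have hu : u D z = 0 := by unfold u; rw [if_pos hz]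
    obtain ⟨c, hc, hn⟩ := hz
    obtain ⟨o, rfl⟩ := (near_iff z c).1 hn
    rw [hu, add_zero, Finset.sum_eq_single o]
    · unfold f; rw [if_pos hc]
    · intro o' _ hne
      unfold f
      rw [if_neg]
      intro hc'
      exact hne (nb_inj z (h.unique hc' hc ((near_iff _ _).2 ⟨o', rfl⟩) hn))
    · intro h'; exact absurd (Finset.mem_univ o) h'
  · have hu : u D z = 1 := by unfold u; rw [if_neg hz]
    rw [hu, zz]
    apply Finset.sum_eq_zero
    intro o _
    unfold f
    rw [if_neg]
    intro hc
    exact hz ⟨_, hc, (near_iff _ _).2 ⟨o, rfl⟩⟩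

lemma Code.Tu (h : Code n s D) (z : Str n) : T (u D) z = ((n : ZMod 2) + 1) * (f D z + 1) := by
  have h1 := TT (f D) z
  have h2 : T (T (f D)) z = ∑ o : Option (Fin n), (1 + u D (nb z o)) := by
    conv_lhs => unfold T
    apply Finset.sum_congr rfl
    intro o _
    exact h.Tf (nb z o)
  rw [h2, Finset.sum_add_distrib, Finset.sum_const, Finset.card_univ, Fintype.card_option,
    Fintype.card_fin, nsmul_eq_mul] at h1
  change _ + T (u D) z = _ at h1
  push_cast at h1
  have h3 := zz ((n : ZMod 2) + 1)
  linear_combination h1 - h3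

lemma Code.u_free (h : Code n s D) {z : Str n} (hz : ¬ HasRun s z) : u D z = 0 := by
  classical
  unfold u
  rw [if_pos]
  obtain ⟨c, ⟨hc, hn⟩, _⟩ := h.cov z hz
  exact ⟨c, hc, hn⟩

lemma covered_of_u {z : Str n} (hz : u D z = 0) : ∃ c ∈ D, Near z c := by
  classical
  by_contra h
  unfold u at hz
  rw [if_neg h] at hz
  exact one_ne_zero hz

lemma mem_of_f {z : Str n} (hz : f D z = 1) : z ∈ D := by
  classical
  by_contra h
  unfold f at hz
  rw [if_neg h] at hz
  exact zero_ne_one hz

/-- a letter `1` of a neighbour -/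
lemma nb_true {x : Str n} {o : Option (Fin n)} {j : Fin n} (h : nb x o j = true) :
    x j = true ∨ o = some j := by
  cases o with
  | none => exact Or.inl h
  | some i =>
    by_cases hij : j = i
    · right; rw [hij]
    · left
      change flip x i j = true at h
      rwa [flip_ne x hij] at h

lemma T_single {x : Str n} (o : Option (Fin n)) (g : Str n → ZMod 2)
    (h : ∀ o', o' ≠ o → g (nb x o') = 0) : T g x = g (nb x o) := by
  unfold T
  rw [Finset.sum_eq_single o (fun o' _ hne => h o' hne)
    (fun h' => absurd (Finset.mem_univ o) h')]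

lemma T_pair {x : Str n} (o p : Option (Fin n)) (hop : o ≠ p) (g : Str n → ZMod 2)
    (h : ∀ o', o' ≠ o → o' ≠ p → g (nb x o') = 0) : T g x = g (nb x o) + g (nb x p) := by
  classical
  unfold T
  rw [← Finset.sum_subset (Finset.subset_univ {o, p}), Finset.sum_pair hop]
  intro o' _ hne
  simp only [Finset.mem_insert, Finset.mem_singleton, not_or] at hne
  exact h o' hne.1 hne.2

/-! ### All strings are covered if `n < 2 s` and `n` is odd -/

lemma odd_cast (hn : Odd n) : (n : ZMod 2) + 1 = 0 := by
  obtain ⟨k, rfl⟩ := hn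
  push_cast
  have h2 : (2 : ZMod 2) = 0 := by decide
  linear_combination ((k : ZMod 2) + 1) * h2

lemma even_cast (hn : Even n) : (n : ZMod 2) + 1 = 1 := by
  obtain ⟨k, rfl⟩ := hn
  push_cast
  linear_combination zz (k : ZMod 2)

lemma Code.all_covered (h : Code n s D) (hodd : Odd n) (hs : n < 2 * s) (z : Str n) :
    u D z = 0 := by
  by_contra hne
  have hz : HasRun s z := by
    by_contra hz
    exact hne (h.u_free hz)
  obtain ⟨k, hk, hr⟩ := hz
  have hm : s - 1 < n := by omega
  set m : Fin n := ⟨s - 1, hm⟩ with hmdef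
  have hzm : z m = true := hr m (by simp only [hmdef]; omega) (by simp only [hmdef]; omega)
  have hy : T (u D) (flip z m) = u D (nb (flip z m) (some m)) := by
    apply T_single
    intro o ho
    apply h.u_free
    rintro ⟨k', hk', hr'⟩
    have h1 := hr' m (by simp only [hmdef]; omega) (by simp only [hmdef]; omega)
    rcases nb_true h1 with h2 | h2
    · rw [flip_same, hzm] at h2
      simp at h2
    · exact ho h2
  rw [h.Tu, odd_cast hodd, zero_mul] at hy
  change 0 = u D (flip (flip z m) m) at hy
  rw [flip_flip] at hy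
  exact hne hy.symm

/-! ### `n ≤ 2 s` if `s ≥ 3` and `n` is odd -/

/-- the string `1^s` followed by zeros, except possibly for a letter `1` at the place `t` -/
def B (n s t : ℕ) : Str n := fun j => decide ((j : ℕ) < s ∨ (j : ℕ) = t)

lemma Code.B_covered (h : Code n s D) (hodd : Odd n) (hs : 3 ≤ s) (hsn : s ≤ n) {t : ℕ}
    (ht : s + 1 ≤ t) : u D (B n s t) = 0 := by
  have hm : s - 1 < n := by omega
  set m : Fin n := ⟨s - 1, hm⟩ with hmdef
  have hBm : B n s t m = true := by
    simp only [B, hmdef, decide_eq_true_eq]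
    left; omega
  have hy : T (u D) (flip (B n s t) m) = u D (nb (flip (B n s t) m) (some m)) := by
    apply T_single
    intro o ho
    apply h.u_free
    rintro ⟨k, hk, hr⟩
    have hmf : flip (B n s t) m m = false := by rw [flip_same, hBm]; rfl
    by_cases hks : k ≤ s - 1
    · have h1 := hr m (by simp only [hmdef]; omega) (by simp only [hmdef]; omega)
      rcases nb_true h1 with h2 | h2
      · rw [hmf] at h2
        exact absurd h2 (by simp)
      · exact ho h2
    · -- positions `k, k+1, k+2`
      have key : ∀ (l : ℕ) (hl : l < n), k ≤ l → l < k + s → l = t ∨ o = some ⟨l, hl⟩ := by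
        intro l hl h1 h2
        rcases nb_true (hr ⟨l, hl⟩ h1 h2) with h3 | h3
        · left
          have hne : (⟨l, hl⟩ : Fin n) ≠ m := by
            intro he
            have := congrArg Fin.val he
            simp only [hmdef] at this
            omega
          rw [flip_ne _ hne] at h3
          simp only [B, decide_eq_true_eq] at h3
          omega
        · right; exact h3
      have k0 := key k (by omega) le_rfl (by omega)
      have k1 := key (k + 1) (by omega) (by omega) (by omega)
      have k2 := key (k + 2) (by omega) (by omega) (by omega)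
      have inj : ∀ (a b : ℕ) (ha : a < n) (hb : b < n), o = some ⟨a, ha⟩ → o = some ⟨b, hb⟩ →
          a = b := by
        intro a b ha hb e1 e2
        rw [e1] at e2
        simpa using e2
      rcases k0 with k0 | k0 <;> rcases k1 with k1 | k1 <;> rcases k2 with k2 | k2 <;>
        first
        | omega
        | (have := inj _ _ _ _ k0 k1; omega)
        | (have := inj _ _ _ _ k0 k2; omega)
        | (have := inj _ _ _ _ k1 k2; omega)
  rw [h.Tu, odd_cast hodd, zero_mul] at hy
  change 0 = u D (flip (flip (B n s t) m) m) at hy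
  rw [flip_flip] at hy
  exact hy.symm

lemma Code.B_code (h : Code n s D) (hodd : Odd n) (hs : 3 ≤ s) (hsn : s ≤ n) {t : ℕ}
    (ht : s + 1 ≤ t) : ∃ i : Fin n, (i : ℕ) < s ∧ flip (B n s t) i ∈ D := by
  obtain ⟨c, hc, hn⟩ := covered_of_u (h.B_covered hodd hs hsn ht)
  have hB : ∀ j : Fin n, (j : ℕ) < s → B n s t j = true := by
    intro j hj
    simp only [B, decide_eq_true_eq]
    left; exact hj
  rcases hn with rfl | ⟨i, rfl⟩
  · exact absurd ⟨0, by omega, fun j _ h2 => hB j (by omega)⟩ (h.free _ hc)
  · refine ⟨i, ?_, hc⟩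
    by_contra hi
    refine h.free _ hc ⟨0, by omega, fun j _ h2 => ?_⟩
    have hne : j ≠ i := by
      intro he
      rw [he] at h2
      omega
    rw [flip_ne _ hne]
    exact hB j (by omega)

lemma B_near {s t : ℕ} (ht : s + 1 ≤ t) (htn : t ≤ n) {i : Fin n} (hi : (i : ℕ) < s) :
    Near (flip (B n s n) i) (flip (B n s t) i) := by
  rcases Nat.lt_or_ge t n with h | h
  · right
    refine ⟨⟨t, h⟩, ?_⟩
    have hti : (⟨t, h⟩ : Fin n) ≠ i := by
      intro he
      have := congrArg Fin.val he
      simp only at this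
      omega
    funext j
    by_cases hj : j = ⟨t, h⟩
    · subst hj
      rw [flip_ne _ hti, flip_same, flip_ne _ hti]
      have h1 : B n s t ⟨t, h⟩ = true := by simp [B]
      have h2 : B n s n ⟨t, h⟩ = false := by
        simp only [B, decide_eq_false_iff_not]
        omega
      rw [h1, h2]; rfl
    · rw [flip_ne _ hj]
      have hjt : (j : ℕ) ≠ t := fun he => hj (Fin.ext he)
      have hB : B n s t j = B n s n j := by
        simp only [B]
        congr 1
        have := j.isLt
        apply propext
        constructor <;> intro h' <;> omega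
      by_cases hji : j = i
      · subst hji; rw [flip_same, flip_same, hB]
      · rw [flip_ne _ hji, flip_ne _ hji, hB]
  · have : t = n := le_antisymm htn h
    rw [this]
    exact Or.inl rfl

lemma B_inj {s t t' : ℕ} (ht : s + 1 ≤ t) (htn : t ≤ n) (ht' : s + 1 ≤ t') (htn' : t' ≤ n)
    (h : B n s t = B n s t') : t = t' := by
  rcases Nat.lt_or_ge t n with h1 | h1
  · have := congrFun h ⟨t, h1⟩
    have h2 : B n s t ⟨t, h1⟩ = true := by simp [B]
    rw [h2] at this
    have h3 := this.symm
    simp only [B, decide_eq_true_eq] at h3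
    omega
  · rcases Nat.lt_or_ge t' n with h4 | h4
    · have := congrFun h ⟨t', h4⟩
      have h2 : B n s t' ⟨t', h4⟩ = true := by simp [B]
      rw [h2] at this
      simp only [B, decide_eq_true_eq] at this
      omega
    · omega

lemma Code.le_two_mul (h : Code n s D) (hodd : Odd n) (hs : 3 ≤ s) : n ≤ 2 * s := by
  rcases Nat.lt_or_ge n s with hsn | hsn
  · omega
  have : Nonempty (Fin n) := ⟨⟨0, by omega⟩⟩
  choose! g hg1 hg2 using fun (t : ℕ) (ht : s + 1 ≤ t) => h.B_code hodd hs hsn ht
  have hcard : (Finset.Icc (s + 1) n).card ≤ (Finset.range s).card := by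
    apply Finset.card_le_card_of_injOn (fun t => (g t : ℕ))
    · intro t ht
      simp only [Finset.coe_Icc, Set.mem_Icc] at ht
      simp only [Finset.coe_range, Set.mem_Iio]
      exact hg1 t ht.1
    · intro t ht t' ht' he
      simp only [Finset.coe_Icc, Set.mem_Icc] at ht ht'
      have he' : g t = g t' := Fin.ext he
      have h1 := hg2 t ht.1
      have h2 := hg2 t' ht'.1
      have n1 := B_near ht.1 ht.2 (hg1 t ht.1)
      have n2 := B_near ht'.1 ht'.2 (hg1 t' ht'.1)
      rw [← he'] at h2 n2
      have e := h.unique h1 h2 n1 n2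
      have e' := congrArg (fun x => flip x (g t)) e
      simp only [flip_flip] at e'
      exact B_inj ht.1 ht.2 ht'.1 ht'.2 e'
  rw [Nat.card_Icc, Finset.card_range] at hcard
  omega

/-! ### `n` is odd -/

/-- the string of zeros -/
def O (n : ℕ) : Str n := fun _ => false

lemma no_run_two {o p : Option (Fin n)} (hs : 3 ≤ s) : ¬ HasRun s (nb (nb (O n) o) p) := by
  rintro ⟨k, hk, hr⟩
  have key : ∀ (l : ℕ) (hl : l < n), k ≤ l → l < k + s → o = some ⟨l, hl⟩ ∨ p = some ⟨l, hl⟩ := by
    intro l hl h1 h2
    rcases nb_true (hr ⟨l, hl⟩ h1 h2) with h3 | h3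
    · rcases nb_true h3 with h4 | h4
      · exact absurd h4 (by simp [O])
      · exact Or.inl h4
    · exact Or.inr h3
  have inj : ∀ (q : Option (Fin n)) (a b : ℕ) (ha : a < n) (hb : b < n), q = some ⟨a, ha⟩ →
      q = some ⟨b, hb⟩ → a = b := by
    intro q a b ha hb e1 e2
    rw [e1] at e2
    simpa using e2
  have k0 := key k (by omega) le_rfl (by omega)
  have k1 := key (k + 1) (by omega) (by omega) (by omega)
  have k2 := key (k + 2) (by omega) (by omega) (by omega)
  rcases k0 with k0 | k0 <;> rcases k1 with k1 | k1 <;> rcases k2 with k2 | k2 <;>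
    first
    | (have := inj _ _ _ _ _ k0 k1; omega)
    | (have := inj _ _ _ _ _ k0 k2; omega)
    | (have := inj _ _ _ _ _ k1 k2; omega)

lemma no_run_one {o : Option (Fin n)} (hs : 2 ≤ s) : ¬ HasRun s (nb (O n) o) := by
  rintro ⟨k, hk, hr⟩
  have key : ∀ (l : ℕ) (hl : l < n), k ≤ l → l < k + s → o = some ⟨l, hl⟩ := by
    intro l hl h1 h2
    rcases nb_true (hr ⟨l, hl⟩ h1 h2) with h3 | h3
    · exact absurd h3 (by simp [O])
    · exact h3
  have k0 := key k (by omega) le_rfl (by omega)
  have k1 := key (k + 1) (by omega) (by omega) (by omega)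
  rw [k0] at k1
  simp at k1

lemma f_eq_of_even (h : Code n s D) (he : Even n) {z : Str n}
    (hz : ∀ o, ¬ HasRun s (nb z o)) : z ∈ D := by
  have h1 := h.Tu z
  rw [even_cast he, one_mul] at h1
  have h2 : T (u D) z = 0 := by
    unfold T
    exact Finset.sum_eq_zero fun o _ => h.u_free (hz o)
  rw [h2] at h1
  apply mem_of_f
  have h3 := zz (1 : ZMod 2)
  linear_combination -h1 - h3

lemma near_O (i : Fin n) : Near (O n) (flip (O n) i) := Or.inr ⟨i, rfl⟩

lemma O_ne (i : Fin n) : flip (O n) i ≠ O n := flip_ne_self _ _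

lemma Code.odd_of_three (h : Code n s D) (hn : 3 ≤ n) (hs : 3 ≤ s) : Odd n := by
  rw [← Nat.not_even_iff_odd]
  intro he
  have h0 : O n ∈ D := f_eq_of_even h he fun o => no_run_one (by omega)
  have h1 : flip (O n) ⟨0, by omega⟩ ∈ D :=
    f_eq_of_even h he fun o => no_run_two (o := some ⟨0, by omega⟩) hs
  exact O_ne _ (h.unique h1 h0 (near_O _) (Or.inl rfl))

/-! ### `s = 2` -/

/-- a covered pair of neighbouring letters -/
lemma pair_covered {D : Set (Str n)} (h : Code n 2 D) {a b : Fin n} (hab : (b : ℕ) = a + 1)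
    (hu : u D (flip (flip (O n) a) b) = 0) : flip (O n) a ∈ D ∨ flip (O n) b ∈ D := by
  have hne : a ≠ b := by
    intro he
    rw [he] at hab
    omega
  have ha : flip (flip (O n) a) b a = true := by
    rw [flip_ne _ hne, flip_same]; rfl
  have hb : flip (flip (O n) a) b b = true := by
    rw [flip_same, flip_ne _ (Ne.symm hne)]; rfl
  obtain ⟨c, hc, hn⟩ := covered_of_u hu
  have run : ∀ x : Str n, x a = true → x b = true → HasRun 2 x := by
    intro x hxa hxb
    refine ⟨a, by have := b.isLt; omega, fun j h1 h2 => ?_⟩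
    by_cases hj : (j : ℕ) = a
    · rw [Fin.ext hj]; exact hxa
    · have : (j : ℕ) = b := by omega
      rw [Fin.ext this]; exact hxb
  rcases hn with rfl | ⟨i, rfl⟩
  · exact absurd (run _ ha hb) (h.free _ hc)
  · by_cases hia : i = a
    · subst hia
      right
      rwa [flip_comm, flip_flip] at hc
    · by_cases hib : i = b
      · subst hib
        left
        rwa [flip_flip] at hc
      · exfalso
        apply h.free _ hc
        apply run
        · rw [flip_ne _ (Ne.symm hia)]; exact ha
        · rw [flip_ne _ (Ne.symm hib)]; exact hb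

/-- the neighbours of a string with one letter `1` -/
lemma single_nb {a : Fin n} {o : Option (Fin n)} (hr : HasRun 2 (nb (flip (O n) a) o)) :
    ∃ b : Fin n, o = some b ∧ ((b : ℕ) = a + 1 ∨ (a : ℕ) = b + 1) := by
  obtain ⟨k, hk, hr⟩ := hr
  have key : ∀ (l : ℕ) (hl : l < n), k ≤ l → l < k + 2 → a = ⟨l, hl⟩ ∨ o = some ⟨l, hl⟩ := by
    intro l hl h1 h2
    rcases nb_true (hr ⟨l, hl⟩ h1 h2) with h3 | h3
    · left
      by_contra hne
      rw [flip_ne _ (Ne.symm hne)] at h3
      exact absurd h3 (by simp [O])
    · exact Or.inr h3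
  rcases key k (by omega) le_rfl (by omega) with k0 | k0 <;>
    rcases key (k + 1) (by omega) (by omega) (by omega) with k1 | k1
  · rw [k0] at k1; simp at k1
  · exact ⟨_, k1, Or.inl (by rw [k0])⟩
  · exact ⟨_, k0, Or.inr (by rw [k1])⟩
  · rw [k0] at k1; simp at k1

lemma two_small {D : Set (Str n)} (h : Code n 2 D) (hn : 4 ≤ n) : False := by
  set a0 : Fin n := ⟨0, by omega⟩ with ha0
  set a1 : Fin n := ⟨1, by omega⟩ with ha1
  set a2 : Fin n := ⟨2, by omega⟩ with ha2
  set a3 : Fin n := ⟨3, by omega⟩ with ha3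
  have t0 : T (u D) (flip (O n) a0) = u D (nb (flip (O n) a0) (some a1)) := by
    apply T_single
    intro o ho
    apply h.u_free
    intro hr
    obtain ⟨b, rfl, hb⟩ := single_nb hr
    apply ho
    congr 1
    apply Fin.ext
    simp only [ha0, ha1] at hb ⊢
    omega
  have t1 : T (u D) (flip (O n) a1) = u D (nb (flip (O n) a1) (some a0)) +
      u D (nb (flip (O n) a1) (some a2)) := by
    apply T_pair
    · simp [ha0, ha2]
    intro o ho1 ho2
    apply h.u_free
    intro hr
    obtain ⟨b, rfl, hb⟩ := single_nb hr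
    simp only [ha1] at hb
    rcases hb with hb | hb
    · exact ho2 (congrArg some (Fin.ext (by simp only [ha2]; omega)))
    · exact ho1 (congrArg some (Fin.ext (by simp only [ha0]; omega)))
  have t2 : T (u D) (flip (O n) a2) = u D (nb (flip (O n) a2) (some a1)) +
      u D (nb (flip (O n) a2) (some a3)) := by
    apply T_pair
    · simp [ha1, ha3]
    intro o ho1 ho2
    apply h.u_free
    intro hr
    obtain ⟨b, rfl, hb⟩ := single_nb hr
    simp only [ha2] at hb
    rcases hb with hb | hb
    · exact ho2 (congrArg some (Fin.ext (by simp only [ha3]; omega)))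
    · exact ho1 (congrArg some (Fin.ext (by simp only [ha1]; omega)))
  change _ = u D (flip (flip (O n) a0) a1) at t0
  change _ = u D (flip (flip (O n) a1) a0) + u D (flip (flip (O n) a1) a2) at t1
  change _ = u D (flip (flip (O n) a2) a1) + u D (flip (flip (O n) a2) a3) at t2
  rw [flip_comm (O n) a1 a0] at t1
  rw [flip_comm (O n) a2 a1] at t2
  rcases Nat.even_or_odd n with he | ho
  · have h0 : O n ∈ D := f_eq_of_even h he fun o => no_run_one (by omega)
    have hf : ∀ i, flip (O n) i ∉ D := fun i hi =>
      O_ne i (h.unique hi h0 (near_O i) (Or.inl rfl))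
    have hf' : ∀ i, f D (flip (O n) i) = 0 := by
      classical
      intro i
      unfold f
      rw [if_neg (hf i)]
    rw [h.Tu, even_cast he, hf'] at t0 t1
    have : u D (flip (flip (O n) a1) a2) = 0 := by linear_combination t0 - t1
    rcases pair_covered h (by simp [ha1, ha2]) this with h' | h'
    · exact hf _ h'
    · exact hf _ h'
  · rw [h.Tu, odd_cast ho, zero_mul] at t0 t1 t2
    have u1 : u D (flip (flip (O n) a1) a2) = 0 := by linear_combination t0 - t1
    have u2 : u D (flip (flip (O n) a2) a3) = 0 := by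
      linear_combination -t2 - u1
    have c1 := pair_covered h (by simp [ha0, ha1]) t0.symm
    have c2 := pair_covered h (by simp [ha2, ha3]) u2
    have key : ∀ i j : Fin n, flip (O n) i ∈ D → flip (O n) j ∈ D → i = j := fun i j hi hj =>
      flip_inj _ (h.unique hi hj (near_O i) (near_O j))
    rcases c1 with c1 | c1 <;> rcases c2 with c2 | c2 <;>
      (have := key _ _ c1 c2; simp [ha0, ha1, ha2, ha3] at this)

lemma Code.main (h : Code n s D) (hn : 3 ≤ n) (hs : 2 ≤ s) : Odd n ∧ n < 2 * s := by
  rcases Nat.lt_or_ge s 3 with h3 | h3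
  · have hs2 : s = 2 := by omega
    subst hs2
    rcases Nat.lt_or_ge n 4 with h4 | h4
    · have : n = 3 := by omega
      subst this
      exact ⟨by decide, by omega⟩
    · exact absurd (two_small h h4) id
  · have ho := h.odd_of_three hn h3
    refine ⟨ho, ?_⟩
    have := h.le_two_mul ho h3
    obtain ⟨k, hk⟩ := ho
    omega

end

/-- the code in the hypercube -/
lemma code_of (s : ℕ) (C : Set {x : Str n // ¬ HasRun s x}) (hC : IsPerfectCode (fibCube n s) C) :
    Code n s (Subtype.val '' C) := by
  have hadj : ∀ x y : {x : Str n // ¬ HasRun s x}, (fibCube n s).Adj x y ↔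
      ∃ i, y.1 = flip x.1 i := by
    intro x y
    rw [← adj_iff]
    rfl
  have hnear : ∀ v c : {x : Str n // ¬ HasRun s x}, (v = c ∨ (fibCube n s).Adj c v) ↔
      Near v.1 c.1 := by
    intro v c
    rw [hadj]
    constructor
    · rintro (rfl | ⟨i, hi⟩)
      · exact Or.inl rfl
      · exact Near.symm (Or.inr ⟨i, hi⟩)
    · intro hn
      rcases hn.symm with h | h
      · exact Or.inl (Subtype.ext h)
      · exact Or.inr h
  constructor
  · rintro _ ⟨c, _, rfl⟩
    exact c.2
  · intro v hv
    obtain ⟨c, ⟨hc, hn⟩, hu⟩ := hC ⟨v, hv⟩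
    refine ⟨c.1, ⟨⟨c, hc, rfl⟩, (hnear ⟨v, hv⟩ c).1 hn⟩, ?_⟩
    rintro _ ⟨⟨d, hd, rfl⟩, hdn⟩
    rw [hu d ⟨hd, (hnear ⟨v, hv⟩ d).2 hdn⟩]

/-- For `n ≥ 3` and `s ≥ 2`, every perfect code of the generalized Fibonacci cube `Γ_n(1^s)` is a
perfect code of the hypercube `Q_n`, and `n = 2^p - 1` for some `p`; moreover `n < 2 s`. -/
theorem result (n s : ℕ) (hn : 3 ≤ n) (hs : 2 ≤ s) (C : Set {x : Str n // ¬ HasRun s x})
    (hC : IsPerfectCode (fibCube n s) C) :
    (∃ p : ℕ, n = 2 ^ p - 1) ∧ IsPerfectCode (cube n) (Subtype.val '' C) ∧ n < 2 * s := by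
  classical
  have h := code_of s C hC
  set D : Set (Str n) := Subtype.val '' C with hD
  obtain ⟨hodd, hlt⟩ := h.main hn hs
  have hcov : ∀ z : Str n, ∃ c ∈ D, Near z c := fun z =>
    covered_of_u (h.all_covered hodd hlt z)
  refine ⟨?_, ?_, hlt⟩
  · have hbij : Function.Bijective (fun q : D × Option (Fin n) => nb q.1.1 q.2) := by
      constructor
      · rintro ⟨⟨c, hc⟩, o⟩ ⟨⟨c', hc'⟩, o'⟩ he
        simp only at he
        have h1 : Near (nb c o) c := Near.symm ((near_iff _ _).2 ⟨o, rfl⟩)
        have h2 : Near (nb c o) c' := by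
          rw [he]
          exact Near.symm ((near_iff _ _).2 ⟨o', rfl⟩)
        have e := h.unique hc hc' h1 h2
        subst e
        rw [nb_inj c he]
      · intro z
        obtain ⟨c, hc, hn'⟩ := hcov z
        obtain ⟨o, ho⟩ := (near_iff _ _).1 hn'.symm
        exact ⟨(⟨c, hc⟩, o), ho.symm⟩
    have hcard := Fintype.card_of_bijective hbij
    rw [Fintype.card_prod, Fintype.card_option, Fintype.card_fin, Fintype.card_fun,
      Fintype.card_bool, Fintype.card_fin] at hcard
    have hdvd : n + 1 ∣ 2 ^ n := ⟨Fintype.card D, by rw [← hcard]; ring⟩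
    obtain ⟨p, _, hp⟩ := (Nat.dvd_prime_pow Nat.prime_two).1 hdvd
    exact ⟨p, by omega⟩
  · intro v
    obtain ⟨c, hc, hn'⟩ := hcov v
    have hiff : ∀ c : Str n, (v = c ∨ (cube n).Adj c v) ↔ Near v c := by
      intro c
      rw [adj_iff]
      constructor
      · intro hh; exact Near.symm hh
      · intro hh; exact hh.symm
    refine ⟨c, ⟨hc, (hiff c).2 hn'⟩, ?_⟩
    rintro d ⟨hd, hdn⟩
    exact h.unique hd hc ((hiff d).1 hdn) hn'

end Pool.Agent.Results.MP_87e4a0_co.PerfectCodes
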